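import Mathlib

/-!
# A counterexample at p = 397

All four conjectured identities for the values of `S_p` at the primitive twelfth roots of unity
fail for `p = 397`. (Numerically `S_397(e^(2πi/12)) = i (2 √397 - 23 √3) ^ 3` up to sign, while the
conjecture predicts exponent `1`; the exponent is half the class number of `ℚ(√(3 * 397))`.)

The proof reduces the identities modulo a prime of the cyclotomic field above `14293`.
-/

open Polynomial

namespace Pool.Agent.Results.MP_8a3680_nt.Counterexample397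

/-- `S_p(x) = ∏_{k=1}^{(p-1)/2} (x - e^(2πi k²/p))`. -/
noncomputable def S (p : ℕ) (x : ℂ) : ℂ :=
  ∏ k ∈ Finset.Icc 1 ((p - 1) / 2),
    (x - Complex.exp (2 * Real.pi * Complex.I * (k : ℂ) ^ 2 / p))

/-- `N_ε(p)`: the number of integers `1 ≤ k < p / 4` with Legendre symbol `(k / p) = ε`
(for a prime `p` the Jacobi symbol is the Legendre symbol). -/
noncomputable def N (ε : ℤ) (p : ℕ) : ℕ :=
  {k : ℤ | 1 ≤ k ∧ 4 * k < p ∧ jacobiSym k p = ε}.ncard

/-- `(x, y)` is the least solution in positive integers of `3 x² + 1 = p y²`. -/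
def IsLeastSolution (p x y : ℕ) : Prop :=
  0 < x ∧ 0 < y ∧ 3 * x ^ 2 + 1 = p * y ^ 2 ∧
    ∀ x' y' : ℕ, 0 < x' → 0 < y' → 3 * x' ^ 2 + 1 = p * y' ^ 2 → x ≤ x' ∧ y ≤ y'

/-- The first identity, upper signs. -/
def Identity1 (p x y : ℕ) : Prop :=
  S p (Complex.exp (2 * Real.pi * Complex.I / 12)) =
    Complex.I * (-1) ^ ((p - 5) / 8 + N (-1) p) * (x * (√3 : ℝ) - y * (√(p : ℝ) : ℝ))

/-- The first identity, lower signs. -/
def Identity2 (p x y : ℕ) : Prop :=
  S p (Complex.exp (-(2 * Real.pi * Complex.I / 12))) =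
    Complex.I * (-1) ^ ((p - 5) / 8 + N 1 p) * (x * (√3 : ℝ) - y * (√(p : ℝ) : ℝ))

/-- The second identity, upper signs. -/
def Identity3 (p x y : ℕ) : Prop :=
  S p (Complex.exp (2 * Real.pi * Complex.I * 5 / 12)) =
    Complex.I * (-1) ^ ((p - 5) / 8 + N 1 p) * (x * (√3 : ℝ) + y * (√(p : ℝ) : ℝ))

/-- The second identity, lower signs. -/
def Identity4 (p x y : ℕ) : Prop :=
  S p (Complex.exp (-(2 * Real.pi * Complex.I * 5 / 12))) =
    Complex.I * (-1) ^ ((p - 5) / 8 + N (-1) p) * (x * (√3 : ℝ) + y * (√(p : ℝ) : ℝ))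

/-! ### Modular computation -/

/-- The product `∏ (A - h^(k²))` for `1 ≤ k ≤ n`, computed modulo `l`. -/
def prodN (l A h : ℕ) : ℕ → ℕ
  | 0 => 1
  | n + 1 => prodN l A h n * (A + (l - h ^ ((n + 1) ^ 2) % l)) % l

lemma prodN_spec (l A h : ℕ) (hl : 0 < l) (n : ℕ) :
    ((prodN l A h n : ℕ) : ZMod l) =
      ∏ k ∈ Finset.Icc 1 n, ((A : ZMod l) - (h : ZMod l) ^ (k ^ 2)) := by
  induction n with
  | zero => simp [prodN]
  | succ n ih =>
    have h0 : h ^ ((n + 1) ^ 2) % l ≤ l := (Nat.mod_lt _ hl).le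
    rw [Finset.prod_Icc_succ_top (by omega), ← ih, prodN, ZMod.natCast_mod, Nat.cast_mul,
      Nat.cast_add, Nat.cast_sub h0, ZMod.natCast_mod, Nat.cast_pow]
    simp
    ring

/-! ### Reduction modulo a prime above `14293` -/

lemma prime_l : Nat.Prime 14293 := by norm_num

instance : Fact (Nat.Prime 14293) := ⟨prime_l⟩

lemma natpow (n c : ℕ) (h : 216 ^ n % 14293 = c) : (216 : ZMod 14293) ^ n = (c : ZMod 14293) := by
  rw [← h, ZMod.natCast_mod]
  push_cast
  rfl

lemma primitive_g : IsPrimitiveRoot (216 : ZMod 14293) 4764 := by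
  have h : orderOf (216 : ZMod 14293) = 4764 := by
    apply orderOf_eq_of_pow_and_pow_div_prime (by norm_num)
    · rw [natpow 4764 1 (by decide +kernel)]; simp
    · intro q hq hdvd
      have h1 : (4764 : ℕ) = 2 ^ 2 * (3 * 397) := by norm_num
      rw [h1] at hdvd
      have h397 : Nat.Prime 397 := by norm_num
      rcases (Nat.Prime.dvd_mul hq).mp hdvd with h2 | h2
      · have : q = 2 := (Nat.prime_dvd_prime_iff_eq hq Nat.prime_two).mp (hq.dvd_of_dvd_pow h2)
        subst this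
        rw [show 4764 / 2 = 2382 by norm_num, natpow 2382 14292 (by decide +kernel)]
        decide +kernel
      · rcases (Nat.Prime.dvd_mul hq).mp h2 with h3 | h3
        · have : q = 3 := (Nat.prime_dvd_prime_iff_eq hq Nat.prime_three).mp h3
          subst this
          rw [show 4764 / 3 = 1588 by norm_num, natpow 1588 1840 (by decide +kernel)]
          decide +kernel
        · have : q = 397 := (Nat.prime_dvd_prime_iff_eq hq h397).mp h3
          subst this
          rw [show 4764 / 397 = 12 by norm_num, natpow 12 333 (by decide +kernel)]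
          decide +kernel
  rw [← h]
  exact IsPrimitiveRoot.orderOf _

/-- An integer polynomial relation satisfied by a primitive root of unity of order `4764` in `ℂ`
is also satisfied by `216` modulo `14293`. -/
lemma transfer (P : ℤ[X]) (ζ : ℂ) (hζ : IsPrimitiveRoot ζ 4764) (h : aeval ζ P = 0) :
    aeval (216 : ZMod 14293) P = 0 := by
  have h1 : cyclotomic 4764 ℤ ∣ P := by
    rw [cyclotomic_eq_minpoly hζ (by norm_num)]
    exact minpoly.isIntegrallyClosed_dvd (hζ.isIntegral (by norm_num)) h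
  obtain ⟨Q, hQ⟩ := h1
  have h2 : aeval (216 : ZMod 14293) (cyclotomic 4764 ℤ) = 0 := by
    have h3 := primitive_g.isRoot_cyclotomic (by norm_num)
    rw [IsRoot.def, ← map_cyclotomic_int, eval_map] at h3
    rw [aeval_def]
    exact h3
  rw [hQ, map_mul, h2, zero_mul]

/-- The product in `S`, as a polynomial in a root of unity of order `12 p`. -/
noncomputable def prodPoly (s : Finset ℕ) (j : ℕ) : ℤ[X] := ∏ k ∈ s, (X ^ j - X ^ (12 * k ^ 2))

lemma aeval_prodPoly {R : Type*} [CommRing R] (x : R) (s : Finset ℕ) (j : ℕ) :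
    aeval x (prodPoly s j) = ∏ k ∈ s, (x ^ j - x ^ (12 * k ^ 2)) := by
  unfold prodPoly
  simp only [map_sub, map_pow, map_prod, aeval_X]

/-- The polynomial relation that each identity would imply, with general exponents. -/
noncomputable def QQ (s : Finset ℕ) (a b c u v j : ℕ) (e : ℤ) : ℤ[X] :=
  (C e * X ^ a * prodPoly s j - C (u : ℤ) * (X ^ b + X ^ c)) ^ 2 - C (v : ℤ)

lemma aeval_QQ {R : Type*} [CommRing R] (x : R) (s : Finset ℕ) (a b c u v j : ℕ) (e : ℤ) :
    aeval x (QQ s a b c u v j e) =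
      ((e : R) * x ^ a * ∏ k ∈ s, (x ^ j - x ^ (12 * k ^ 2)) - (u : R) * (x ^ b + x ^ c)) ^ 2
        - (v : R) := by
  unfold QQ
  simp only [map_sub, map_mul, map_pow, map_add, aeval_X, aeval_prodPoly, eq_intCast,
    map_intCast, map_natCast]

/-- The polynomial relation that each identity would imply. -/
noncomputable def PP (j : ℕ) (e : ℤ) : ℤ[X] :=
  QQ (Finset.Icc 1 198) 1191 397 4367 23 1588 j e

lemma aeval_PP {R : Type*} [CommRing R] (x : R) (j : ℕ) (e : ℤ) :
    aeval x (PP j e) = ((e : R) * x ^ 1191 * ∏ k ∈ Finset.Icc 1 198, (x ^ j - x ^ (12 * k ^ 2)) -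
      ((23 : ℕ) : R) * (x ^ 397 + x ^ 4367)) ^ 2 - ((1588 : ℕ) : R) := by
  unfold PP
  exact aeval_QQ x _ _ _ _ _ _ _ _

lemma prod_val (j A c : ℕ) (hA : 216 ^ j % 14293 = A)
    (hc : prodN 14293 A 333 198 = c) :
    ∏ k ∈ Finset.Icc 1 198, ((216 : ZMod 14293) ^ j - 216 ^ (12 * k ^ 2)) = (c : ZMod 14293) := by
  have h := prodN_spec 14293 A 333 (by norm_num) 198
  rw [hc] at h
  rw [h, natpow j A hA]
  apply Finset.prod_congr rfl
  intro k _
  rw [pow_mul, natpow 12 333 (by decide +kernel)]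

lemma not_root (j A c : ℕ) (hA : 216 ^ j % 14293 = A)
    (hc : prodN 14293 A 333 198 = c)
    (h1 : ((1 : ZMod 14293) * 8542 * c - 23 * 1498) ^ 2 - 1588 ≠ 0)
    (h2 : ((-1 : ZMod 14293) * 8542 * c - 23 * 1498) ^ 2 - 1588 ≠ 0)
    (e : ℤ) (he : e = 1 ∨ e = -1) :
    aeval (216 : ZMod 14293) (PP j e) ≠ 0 := by
  rw [aeval_PP, prod_val j A c hA hc, natpow 1191 8542 (by decide +kernel),
    natpow 397 5020 (by decide +kernel), natpow 4367 10771 (by decide +kernel)]
  have h3 : ((5020 : ℕ) : ZMod 14293) + ((10771 : ℕ) : ZMod 14293) = 1498 := by decide +kernel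
  rw [h3]
  rcases he with rfl | rfl
  · simpa using h1
  · simpa using h2

/-! ### The complex side -/

/-- The primitive root of unity `e^(2πi/4764)`. -/
noncomputable def ze : ℂ := Complex.exp (2 * Real.pi * Complex.I / (4764 : ℕ))

lemma ze_prim : IsPrimitiveRoot ze 4764 := Complex.isPrimitiveRoot_exp 4764 (by norm_num)

lemma ze_pow (n : ℕ) : ze ^ n = Complex.exp (2 * Real.pi * Complex.I * n / 4764) := by
  unfold ze
  rw [← Complex.exp_nat_mul]
  congr 1
  push_cast
  ring

lemma ze_I : ze ^ 1191 = Complex.I := by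
  rw [ze_pow]
  have : (2 * Real.pi * Complex.I * (1191 : ℕ) / 4764 : ℂ) = (Real.pi / 2 : ℂ) * Complex.I := by
    push_cast; ring
  rw [this, Complex.exp_mul_I, Complex.cos_pi_div_two, Complex.sin_pi_div_two]
  simp

lemma ze_397 : ze ^ 397 = Complex.exp (2 * Real.pi * Complex.I / 12) := by
  rw [ze_pow]; congr 1; push_cast; ring

lemma ze_period (z : ℂ) : Complex.exp (z + 2 * Real.pi * Complex.I) = Complex.exp z :=
  Complex.exp_periodic z

lemma ze_4367 : ze ^ 4367 = Complex.exp (-(2 * Real.pi * Complex.I / 12)) := by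
  rw [ze_pow, ← ze_period (-(2 * Real.pi * Complex.I / 12))]; congr 1; push_cast; ring

lemma ze_1985 : ze ^ 1985 = Complex.exp (2 * Real.pi * Complex.I * 5 / 12) := by
  rw [ze_pow]; congr 1; push_cast; ring

lemma ze_2779 : ze ^ 2779 = Complex.exp (-(2 * Real.pi * Complex.I * 5 / 12)) := by
  rw [ze_pow, ← ze_period (-(2 * Real.pi * Complex.I * 5 / 12))]; congr 1; push_cast; ring

lemma ze_sqrt3 : ze ^ 397 + ze ^ 4367 = (√3 : ℝ) := by
  have h := Real.cos_pi_div_six
  have h2 : (Complex.cos ((Real.pi / 6 : ℝ) : ℂ)) = ((√3 / 2 : ℝ) : ℂ) := by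
    rw [← Complex.ofReal_cos, h]
  rw [Complex.cos] at h2
  rw [ze_397, ze_4367]
  have e1 : (2 * Real.pi * Complex.I / 12 : ℂ) = ((Real.pi / 6 : ℝ) : ℂ) * Complex.I := by
    push_cast; ring
  have e2 : -(((Real.pi / 6 : ℝ) : ℂ) * Complex.I) = -((Real.pi / 6 : ℝ) : ℂ) * Complex.I := by
    ring
  rw [e1, e2]
  have h3 : ((√3 / 2 : ℝ) : ℂ) = ((√3 : ℝ) : ℂ) / 2 := by push_cast; ring
  rw [h3] at h2
  linear_combination 2 * h2

lemma S_eq (j : ℕ) : S 397 (ze ^ j) = ∏ k ∈ Finset.Icc 1 198, (ze ^ j - ze ^ (12 * k ^ 2)) := by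
  unfold S
  apply Finset.prod_congr (by norm_num)
  intro k _
  rw [ze_pow (12 * k ^ 2)]
  congr 2
  push_cast
  ring

/-- Each of the identities (for one choice of the two signs) implies a polynomial relation. -/
lemma relation (j m : ℕ) (σ : ℂ) (hσ : σ = 1 ∨ σ = -1)
    (h : S 397 (ze ^ j) = Complex.I * (-1) ^ m * ((23 : ℕ) * (√3 : ℝ) + σ * ((2 : ℕ) *
      (√((397 : ℕ) : ℝ) : ℝ)))) :
    ∃ e : ℤ, (e = 1 ∨ e = -1) ∧ aeval ze (PP j e) = 0 := by
  have hs : ((√((397 : ℕ) : ℝ) : ℝ) : ℂ) ^ 2 = 397 := by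
    rw [← Complex.ofReal_pow, Real.sq_sqrt (by positivity)]; norm_num
  have hI : Complex.I ^ 2 = -1 := Complex.I_sq
  have hσ2 : σ ^ 2 = 1 := by rcases hσ with rfl | rfl <;> norm_num
  rcases Nat.even_or_odd m with hm | hm
  · refine ⟨-1, Or.inr rfl, ?_⟩
    rw [aeval_PP, ← S_eq, ze_sqrt3, ze_I, h, hm.neg_one_pow]
    push_cast
    push_cast at hs
    generalize ((√3 : ℝ) : ℂ) = r at *
    generalize ((√(397 : ℝ) : ℝ) : ℂ) = t at *
    have e1 : (-1 * Complex.I * (Complex.I * 1 * (23 * r + σ * (2 * t))) - 23 * r) =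
        σ * (2 * t) := by
      linear_combination (-(23 * r + σ * (2 * t))) * hI
    rw [e1]
    linear_combination 4 * t ^ 2 * hσ2 + 4 * hs
  · refine ⟨1, Or.inl rfl, ?_⟩
    rw [aeval_PP, ← S_eq, ze_sqrt3, ze_I, h, hm.neg_one_pow]
    push_cast
    push_cast at hs
    generalize ((√3 : ℝ) : ℂ) = r at *
    generalize ((√(397 : ℝ) : ℝ) : ℂ) = t at *
    have e1 : (1 * Complex.I * (Complex.I * (-1) * (23 * r + σ * (2 * t))) - 23 * r) =
        σ * (2 * t) := by
      linear_combination (-(23 * r + σ * (2 * t))) * hI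
    rw [e1]
    linear_combination 4 * t ^ 2 * hσ2 + 4 * hs

lemma no_relation (j A c : ℕ) (hA : 216 ^ j % 14293 = A)
    (hc : prodN 14293 A 333 198 = c)
    (h1 : ((1 : ZMod 14293) * 8542 * c - 23 * 1498) ^ 2 - 1588 ≠ 0)
    (h2 : ((-1 : ZMod 14293) * 8542 * c - 23 * 1498) ^ 2 - 1588 ≠ 0)
    (m : ℕ) (σ : ℂ) (hσ : σ = 1 ∨ σ = -1) :
    ¬ (S 397 (ze ^ j) = Complex.I * (-1) ^ m * ((23 : ℕ) * (√3 : ℝ) + σ * ((2 : ℕ) *
      (√((397 : ℕ) : ℝ) : ℝ)))) := by
  intro h
  obtain ⟨e, he, h3⟩ := relation j m σ hσ h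
  exact not_root j A c hA hc h1 h2 e he (transfer _ _ ze_prim h3)

lemma least_solution : IsLeastSolution 397 23 2 := by
  refine ⟨by norm_num, by norm_num, by norm_num, ?_⟩
  intro x y hx hy h
  have hy2 : 2 ≤ y := by
    by_contra hlt
    have : y = 1 := by omega
    subst this
    have h1 : x ^ 2 = 132 := by omega
    have h2 : x < 12 := by nlinarith
    interval_cases x <;> omega
  refine ⟨?_, hy2⟩
  nlinarith

/-- **Main result.** `397` is a prime congruent to `13` modulo `24`, the least positive solution of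
`3 x² + 1 = 397 y²` is `(23, 2)`, and none of the four conjectured identities holds for
`p = 397`. -/
theorem result : Nat.Prime 397 ∧ 397 % 24 = 13 ∧ IsLeastSolution 397 23 2 ∧
    ¬ Identity1 397 23 2 ∧ ¬ Identity2 397 23 2 ∧ ¬ Identity3 397 23 2 ∧
    ¬ Identity4 397 23 2 := by
  refine ⟨by norm_num, by norm_num, least_solution, ?_, ?_, ?_, ?_⟩
  · intro h
    unfold Identity1 at h
    rw [← ze_397] at h
    refine no_relation 397 5020 10595 (by decide +kernel) (by decide +kernel) (by decide +kernel)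
      (by decide +kernel) ((397 - 5) / 8 + N (-1) 397) (-1) (Or.inr rfl) (h.trans ?_)
    ring
  · intro h
    unfold Identity2 at h
    rw [← ze_4367] at h
    refine no_relation 4367 10771 3698 (by decide +kernel) (by decide +kernel) (by decide +kernel)
      (by decide +kernel) ((397 - 5) / 8 + N 1 397) (-1) (Or.inr rfl) (h.trans ?_)
    ring
  · intro h
    unfold Identity3 at h
    rw [← ze_1985] at h
    refine no_relation 1985 3522 8994 (by decide +kernel) (by decide +kernel) (by decide +kernel)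
      (by decide +kernel) ((397 - 5) / 8 + N 1 397) 1 (Or.inl rfl) (h.trans ?_)
    ring
  · intro h
    unfold Identity4 at h
    rw [← ze_2779] at h
    refine no_relation 2779 9273 5299 (by decide +kernel) (by decide +kernel) (by decide +kernel)
      (by decide +kernel) ((397 - 5) / 8 + N (-1) 397) 1 (Or.inl rfl) (h.trans ?_)
    ring

end Pool.Agent.Results.MP_8a3680_nt.Counterexample397
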